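import Pool.Agent.Helper51.GT.Lib

set_option autoImplicit false

/-! Module DIV: skew polynomials form a domain. -/

namespace Pool.Agent.Helper51.GT

open Polynomial

/-- the matrix with given first row -/
noncomputable def div_M {K : Type} [Field K] (S : K[X] →+* K[X]) (a b c d : K[X]) : Mat K :=
  !![a, b, c, d; X * S d, S a, S b, S c; X * S (S c), X * S (S d), S (S a), S (S b);
    X * S (S (S b)), X * S (S (S c)), X * S (S (S d)), S (S (S a))]

theorem div_shift {K : Type} [Field K] (S : K[X] →+* K[X]) (hX : S X = X) (a b c d : K[X]) :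
    div_M S (X * a) b c d = div_M S b c d a * Zm := by
  refine Matrix.ext fun i j => ?_
  fin_cases i <;> fin_cases j <;>
    simp [div_M, Zm, Matrix.mul_apply, Fin.sum_univ_four, hX, mul_comm X]

theorem div_Zm {K : Type} [Field K] : (Zm : Mat K).det ≠ 0 := by
  intro h
  have h1 := congrArg Matrix.det (Lib.Z4 (K := K))
  rw [Matrix.det_mul, h, mul_zero, Matrix.det_smul, Matrix.det_one, mul_one] at h1
  exact pow_ne_zero _ X_ne_zero h1.symm

theorem div_unit {K : Type} [Field K] (σ : K →+* K) (a b c d : K[X]) (ha : a.coeff 0 ≠ 0) :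
    (div_M (Polynomial.mapRingHom σ) a b c d).det ≠ 0 := by
  intro h0
  have h1 : ((constantCoeff : K[X] →+* K).mapMatrix
      (div_M (Polynomial.mapRingHom σ) a b c d)).det = 0 := by
    rw [← RingHom.map_det, h0, map_zero]
  rw [Matrix.det_of_upperTriangular] at h1
  · rw [Fin.prod_univ_four] at h1
    simp [div_M, ha] at h1
  · intro i j hij
    fin_cases i <;> fin_cases j <;> first | exact absurd hij (by decide) | simp [div_M]

theorem div_main {K : Type} [Field K] (σ : K →+* K) (n : ℕ) : ∀ a b c d : K[X],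
    ((∃ s, 4 * s = n ∧ a.coeff s ≠ 0) ∨ (∃ s, 4 * s + 1 = n ∧ b.coeff s ≠ 0) ∨
      (∃ s, 4 * s + 2 = n ∧ c.coeff s ≠ 0) ∨ (∃ s, 4 * s + 3 = n ∧ d.coeff s ≠ 0)) →
    (div_M (Polynomial.mapRingHom σ) a b c d).det ≠ 0 := by
  induction n with
  | zero =>
    intro a b c d h
    rcases h with ⟨s, hs, h⟩ | ⟨s, hs, _⟩ | ⟨s, hs, _⟩ | ⟨s, hs, _⟩
    · have hs0 : s = 0 := by omega
      subst hs0
      exact div_unit σ a b c d h
    · omega
    · omega
    · omega
  | succ n ih =>
    intro a b c d h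
    by_cases ha : a.coeff 0 = 0
    · obtain ⟨a', rfl⟩ := Polynomial.X_dvd_iff.2 ha
      rw [div_shift _ (by simp), Matrix.det_mul]
      refine mul_ne_zero ?_ div_Zm
      apply ih
      rcases h with ⟨s, hs, h⟩ | ⟨s, hs, h⟩ | ⟨s, hs, h⟩ | ⟨s, hs, h⟩
      · right; right; right
        obtain ⟨t, rfl⟩ : ∃ t, s = t + 1 := ⟨s - 1, by omega⟩
        refine ⟨t, by omega, ?_⟩
        rwa [coeff_X_mul] at h
      · left; exact ⟨s, by omega, h⟩
      · right; left; exact ⟨s, by omega, h⟩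
      · right; right; left; exact ⟨s, by omega, h⟩
    · exact div_unit σ a b c d ha

theorem st_DIV : ST_DIV := by
  intro K _ φ M hM hM0
  obtain ⟨S, hS⟩ : ∃ S : K[X] →+* K[X], S = Polynomial.mapRingHom (fr φ 2) := ⟨_, rfl⟩
  have hSX : S X = X := by rw [hS]; simp
  unfold Cir at hM
  have hent := fun i j => congrFun (congrFun hM i) j
  have hmap : ∀ i j : Fin 4, (Matrix.map M (Polynomial.map (fr φ 2))) i j = S (M i j) := by
    intro i j; rw [hS]; rfl
  have hM4 : M = div_M S (M 0 0) (M 0 1) (M 0 2) (M 0 3) := by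
    have e10 := hent 0 0
    have e11 := hent 0 1
    have e12 := hent 0 2
    have e13 := hent 0 3
    have e20 := hent 1 0
    have e21 := hent 1 1
    have e22 := hent 1 2
    have e23 := hent 1 3
    have e30 := hent 2 0
    have e31 := hent 2 1
    have e32 := hent 2 2
    have e33 := hent 2 3
    rw [Matrix.mul_apply, Matrix.mul_apply, Fin.sum_univ_four, Fin.sum_univ_four]
      at e10 e11 e12 e13 e20 e21 e22 e23 e30 e31 e32 e33
    simp only [hmap] at e10 e11 e12 e13 e20 e21 e22 e23 e30 e31 e32 e33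
    have z00 : (Zm : Mat K) 0 0 = 0 := rfl
    have z01 : (Zm : Mat K) 0 1 = 1 := rfl
    have z02 : (Zm : Mat K) 0 2 = 0 := rfl
    have z03 : (Zm : Mat K) 0 3 = 0 := rfl
    have z10 : (Zm : Mat K) 1 0 = 0 := rfl
    have z11 : (Zm : Mat K) 1 1 = 0 := rfl
    have z12 : (Zm : Mat K) 1 2 = 1 := rfl
    have z13 : (Zm : Mat K) 1 3 = 0 := rfl
    have z20 : (Zm : Mat K) 2 0 = 0 := rfl
    have z21 : (Zm : Mat K) 2 1 = 0 := rfl
    have z22 : (Zm : Mat K) 2 2 = 0 := rfl
    have z23 : (Zm : Mat K) 2 3 = 1 := rfl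
    have z30 : (Zm : Mat K) 3 0 = X := rfl
    have z31 : (Zm : Mat K) 3 1 = 0 := rfl
    have z32 : (Zm : Mat K) 3 2 = 0 := rfl
    have z33 : (Zm : Mat K) 3 3 = 0 := rfl
    simp only [z00, z01, z02, z03, z10, z11, z12, z13, z20, z21, z22, z23, z30, z31, z32, z33,
      mul_zero, zero_mul, mul_one, one_mul, zero_add, add_zero]
      at e10 e11 e12 e13 e20 e21 e22 e23 e30 e31 e32 e33
    rw [← e10] at e21
    rw [← e11] at e22
    rw [← e12] at e23
    rw [← e13] at e20
    rw [← e20] at e31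
    rw [← e21] at e32
    rw [← e22] at e33
    rw [← e23] at e30
    simp only [map_mul, hSX] at e20 e21 e22 e23 e30 e31 e32 e33
    refine Matrix.ext fun i j => ?_
    fin_cases i <;> fin_cases j
    · rfl
    · rfl
    · rfl
    · rfl
    · exact e10.symm.trans (mul_comm _ _)
    · exact e11.symm
    · exact e12.symm
    · exact e13.symm
    · exact e20.symm.trans (mul_comm _ _)
    · exact e21.symm.trans (mul_comm _ _)
    · exact e22.symm
    · exact e23.symm
    · exact e30.symm.trans (mul_comm _ _)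
    · exact e31.symm.trans (mul_comm _ _)
    · exact e32.symm.trans (mul_comm _ _)
    · exact e33.symm
  have hne : M 0 0 ≠ 0 ∨ M 0 1 ≠ 0 ∨ M 0 2 ≠ 0 ∨ M 0 3 ≠ 0 := by
    by_contra hcon
    push Not at hcon
    obtain ⟨h0, h1, h2, h3⟩ := hcon
    apply hM0
    rw [hM4, h0, h1, h2, h3]
    refine Matrix.ext fun i j => ?_
    fin_cases i <;> fin_cases j <;> simp [div_M]
  have hco : ∀ p : K[X], p ≠ 0 → ∃ s, p.coeff s ≠ 0 := by
    intro p hp
    by_contra hc
    push Not at hc
    exact hp (Polynomial.ext (by simpa using hc))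
  rw [hM4, hS]
  rcases hne with h | h | h | h
  · obtain ⟨s, hs⟩ := hco _ h
    exact div_main _ (4 * s) _ _ _ _ (Or.inl ⟨s, rfl, hs⟩)
  · obtain ⟨s, hs⟩ := hco _ h
    exact div_main _ (4 * s + 1) _ _ _ _ (Or.inr (Or.inl ⟨s, rfl, hs⟩))
  · obtain ⟨s, hs⟩ := hco _ h
    exact div_main _ (4 * s + 2) _ _ _ _ (Or.inr (Or.inr (Or.inl ⟨s, rfl, hs⟩)))
  · obtain ⟨s, hs⟩ := hco _ h
    exact div_main _ (4 * s + 3) _ _ _ _ (Or.inr (Or.inr (Or.inr ⟨s, rfl, hs⟩)))

end Pool.Agent.Helper51.GT
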