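import Pool.Agent.Helper51.GT.Defs

set_option autoImplicit false

/-! Module FLD: the fields. -/

namespace Pool.Agent.Helper51.GT

open Polynomial

theorem fld_roots {K : Type} [Field K] [Finite K] (P : K[X]) (hP : P ≠ 0) (p : K → Prop)
    (h : ∀ x, p x → P.eval x = 0) : Nat.card {x : K // p x} ≤ P.natDegree := by
  classical
  have := Fintype.ofFinite K
  rw [Nat.card_eq_fintype_card, Fintype.card_subtype]
  refine le_trans (Finset.card_le_card (t := P.roots.toFinset) ?_)
    (le_trans (Multiset.toFinset_card_le _) (card_roots' P))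
  intro x hx
  rw [Finset.mem_filter] at hx
  rw [Multiset.mem_toFinset, mem_roots hP]
  exact h x hx.2

theorem fld_fr {K : Type} [Field K] (φ : K ≃+* K) (q : ℕ) (h : ∀ x : K, φ x = x ^ q) (i : ℕ)
    (x : K) : fr φ i x = x ^ (q ^ i) := by
  induction i with
  | zero => simp [fr]
  | succ n ih =>
    have e : fr φ (n + 1) x = φ (fr φ n x) := by
      unfold fr
      rw [pow_succ']
      rfl
    rw [e, ih, h, ← pow_mul, pow_succ]

theorem st_FLD : ST_FLD := by
  intro r hr
  have : Fact (Nat.Prime 2) := ⟨Nat.prime_two⟩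
  have hq2 : 2 ≤ 2 ^ r := by
    calc 2 = 2 ^ 1 := (pow_one 2).symm
      _ ≤ 2 ^ r := Nat.pow_le_pow_right (by norm_num) hr
  have hcard : Nat.card (GaloisField 2 (8 * r)) = (2 ^ r) ^ 8 := by
    rw [GaloisField.card 2 (8 * r) (by omega), ← pow_mul, mul_comm]
  let φ : GaloisField 2 (8 * r) ≃+* GaloisField 2 (8 * r) :=
    iterateFrobeniusEquiv (GaloisField 2 (8 * r)) 2 r
  have hφ : ∀ x, φ x = x ^ (2 ^ r) := fun x => iterateFrobeniusEquiv_def _ _ _ _
  have hfr := fld_fr φ (2 ^ r) hφ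
  have hD : Dat φ := by
    refine ⟨?_, ?_⟩
    · exact CharTwo.two_eq_zero
    · intro x
      rw [hfr]
      have := Fintype.ofFinite (GaloisField 2 (8 * r))
      have h1 := FiniteField.pow_card x
      rw [← Nat.card_eq_fintype_card, hcard] at h1
      exact h1
  refine ⟨GaloisField 2 (8 * r), inferInstance, inferInstance, φ, hD, hcard, hφ, ?_, ?_⟩
  · generalize hQ : 2 ^ r = q at *
    have hP : ((X : (GaloisField 2 (8 * r))[X]) ^ (q ^ 6 + q ^ 4 + q ^ 2 + 1) - 1).natDegree =
        q ^ 6 + q ^ 4 + q ^ 2 + 1 := by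
      have := natDegree_X_pow_sub_C (R := GaloisField 2 (8 * r))
        (n := q ^ 6 + q ^ 4 + q ^ 2 + 1) (r := 1)
      simpa using this
    refine le_trans (fld_roots (X ^ (q ^ 6 + q ^ 4 + q ^ 2 + 1) - 1) ?_ _ ?_)
      (le_trans (le_of_eq hP) ?_)
    · intro h0
      rw [h0, natDegree_zero] at hP
      omega
    · intro x hx
      rw [hfr, hfr, hfr] at hx
      have : x ^ (q ^ 6 + q ^ 4 + q ^ 2 + 1) = 1 := by
        rw [← hx]; ring
      simp [this]
    · have h1 : 1 ≤ q ^ 2 := Nat.one_le_pow _ _ (by omega)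
      have h2 : 4 ≤ q ^ 2 := by nlinarith
      have h3 : 4 * q ^ 2 ≤ q ^ 4 := by
        calc 4 * q ^ 2 ≤ q ^ 2 * q ^ 2 := Nat.mul_le_mul_right _ h2
          _ = q ^ 4 := by ring
      have h4 : 4 * q ^ 4 ≤ q ^ 6 := by
        calc 4 * q ^ 4 ≤ q ^ 2 * q ^ 4 := Nat.mul_le_mul_right _ h2
          _ = q ^ 6 := by ring
      omega
  · generalize hQ : 2 ^ r = q at *
    have hP : ((X : (GaloisField 2 (8 * r))[X]) ^ (q ^ 6) +
        (X ^ (q ^ 4) + (X ^ (q ^ 2) + X))).natDegree = q ^ 6 := by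
      have l1 : 1 < q ^ 2 := Nat.one_lt_pow (by omega) (by omega)
      have l2 : q ^ 2 < q ^ 4 := Nat.pow_lt_pow_right (by omega) (by omega)
      have l3 : q ^ 4 < q ^ 6 := Nat.pow_lt_pow_right (by omega) (by omega)
      have a1 : ((X : (GaloisField 2 (8 * r))[X]) ^ (q ^ 2) + X).natDegree ≤ q ^ 2 := by
        refine (natDegree_add_le _ _).trans ?_
        rw [natDegree_X, natDegree_X_pow]
        exact max_le le_rfl l1.le
      have a2 : ((X : (GaloisField 2 (8 * r))[X]) ^ (q ^ 4) + (X ^ (q ^ 2) + X)).natDegree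
          ≤ q ^ 4 := by
        refine (natDegree_add_le _ _).trans ?_
        rw [natDegree_X_pow]
        exact max_le le_rfl (a1.trans l2.le)
      rw [natDegree_add_eq_left_of_natDegree_lt]
      · exact natDegree_X_pow _
      · rw [natDegree_X_pow]
        exact lt_of_le_of_lt a2 l3
    refine le_trans (fld_roots (X ^ (q ^ 6) + (X ^ (q ^ 4) + (X ^ (q ^ 2) + X))) ?_ _ ?_)
      (le_of_eq hP)
    · intro h0
      rw [h0, natDegree_zero] at hP
      have : 0 < q ^ 6 := by positivity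
      omega
    · intro x hx
      unfold tr4 at hx
      rw [hfr, hfr, hfr] at hx
      simp only [eval_add, eval_pow, eval_X]
      rw [← hx]; ring

end Pool.Agent.Helper51.GT
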